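import Pool.Agent.W642.RS.Stms

set_option autoImplicit false

/-! RS-MATCH (helper642): a set of pairs contains a large matching. -/

namespace Pool.Agent.W688.RS

open Finset Pool.Agent.W642.RS

theorem mtch : S_match := by
  classical
  intro s E hE
  let P : ℕ → Prop := fun m => ∃ u v : Fin m → Fin s, Function.Injective (Sum.elim u v) ∧
    ∀ k, (u k, v k) ∈ E
  have hb : ∀ m, P m → m ≤ s := by
    rintro m ⟨u, v, hu, _⟩
    have h1 : Function.Injective u := fun a b hab => by
      have := @hu (Sum.inl a) (Sum.inl b) (by simpa using hab)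
      simpa using this
    simpa using Fintype.card_le_of_injective u h1
  have h0 : P 0 := ⟨Fin.elim0, Fin.elim0, by
    rintro (a | a) <;> exact a.elim0, fun a => a.elim0⟩
  set m := Nat.findGreatest P s with hm
  have hPm : P m := Nat.findGreatest_spec (Nat.zero_le s) h0
  obtain ⟨u, v, huv, hmem⟩ := hPm
  refine ⟨m, u, v, huv, hmem, ?_⟩
  set A : Finset (Fin s) := univ.image (Sum.elim u v) with hA
  have hAc : A.card ≤ 2 * m := by
    refine card_image_le.trans (le_of_eq ?_)
    simp
    ring
  have hcov : ∀ e ∈ E, e.1 ∈ A ∨ e.2 ∈ A := by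
    intro e he
    by_contra hcon
    push Not at hcon
    obtain ⟨h1, h2⟩ := hcon
    have h1u : ∀ k, u k ≠ e.1 := fun k hk => h1 (by
      rw [hA, mem_image]; exact ⟨Sum.inl k, mem_univ _, hk⟩)
    have h1v : ∀ k, v k ≠ e.1 := fun k hk => h1 (by
      rw [hA, mem_image]; exact ⟨Sum.inr k, mem_univ _, hk⟩)
    have h2u : ∀ k, u k ≠ e.2 := fun k hk => h2 (by
      rw [hA, mem_image]; exact ⟨Sum.inl k, mem_univ _, hk⟩)
    have h2v : ∀ k, v k ≠ e.2 := fun k hk => h2 (by
      rw [hA, mem_image]; exact ⟨Sum.inr k, mem_univ _, hk⟩)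
    have hui : Function.Injective u := fun a b hab => by
      have := @huv (Sum.inl a) (Sum.inl b) (by simpa using hab)
      simpa using this
    have hvi : Function.Injective v := fun a b hab => by
      have := @huv (Sum.inr a) (Sum.inr b) (by simpa using hab)
      simpa using this
    have huv' : ∀ a b, u a ≠ v b := fun a b hab => by
      have := @huv (Sum.inl a) (Sum.inr b) (by simpa using hab)
      simp at this
    have hP : P (m + 1) := by
      refine ⟨Fin.cons e.1 u, Fin.cons e.2 v, ?_, ?_⟩
      · rw [Sum.elim_injective]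
        refine ⟨?_, ?_, ?_⟩
        · rw [Fin.cons_injective_iff]
          exact ⟨by rintro ⟨k, hk⟩; exact h1u k hk, hui⟩
        · rw [Fin.cons_injective_iff]
          exact ⟨by rintro ⟨k, hk⟩; exact h2v k hk, hvi⟩
        · intro a b
          refine Fin.cases ?_ (fun a => ?_) a <;> refine Fin.cases ?_ (fun b => ?_) b
          · simpa using hE e he
          · simpa using (h1v b).symm
          · simpa using h2u a
          · simpa using huv' a b
      · intro k
        refine Fin.cases ?_ (fun k => ?_) k
        · simpa using he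
        · simpa using hmem k
    have h3 := Nat.le_findGreatest (hb _ hP) hP
    omega
  have hsub : E ⊆ (A ×ˢ univ) ∪ (univ ×ˢ A) := by
    intro e he
    rw [mem_union, mem_product, mem_product]
    rcases hcov e he with h | h
    · exact Or.inl ⟨h, mem_univ _⟩
    · exact Or.inr ⟨mem_univ _, h⟩
  calc E.card ≤ ((A ×ˢ univ) ∪ (univ ×ˢ A)).card := card_le_card hsub
    _ ≤ (A ×ˢ (univ : Finset (Fin s))).card + ((univ : Finset (Fin s)) ×ˢ A).card :=
        card_union_le _ _
    _ = A.card * s + s * A.card := by simp [card_product]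
    _ ≤ 2 * m * s + s * (2 * m) := by gcongr
    _ = 4 * m * s := by ring

end Pool.Agent.W688.RS
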